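import Pool.Agent.Helper12.BK.Dyadic
import Pool.Agent.Results.MP_cbe134_nt.MultiplicativeValues

set_option autoImplicit false

/-! The exceptional values of one variable in the relations of depth `r` between multiple zeta values. -/

namespace Pool.Agent.Helper12.BK

open Pool.Agent.Results.MP_cbe134_nt.ManyVariables (mzv Letter index AdmissiblePattern Splits exceptional
  constantPart)
open Pool.Agent.Results.MP_cbe134_nt.MultiplicativeValues (AllSplit allSplit_mono pow_bound)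

/-- Every relation `∑ c_w ζ(w(s)) = 0` between the multiple zeta values of the patterns `w ∈ Λ` in one
variable at the natural number `s` with integers `c_w` of absolute value at most `C ^ s` splits; and
`c_w = 0` for all `w` of depth `r` if the patterns of depth `r` have at most one constant letter in
front. -/
def SplitsAt (Λ : Finset (List (Letter 1))) (r : ℕ) (S : Letter 1) (C : ℝ) (s : ℕ) : Prop :=
  ∀ c : List (Letter 1) → ℤ, (∀ w, w ∉ Λ → c w = 0) → (∀ w ∈ Λ, |(c w : ℝ)| ≤ C ^ s) →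
    ∑ w ∈ Λ, (c w : ℝ) * mzv (index (fun _ => s) w) = 0 → Splits Λ r S c ∧
      ((∀ w ∈ Λ, w.length = r → (constantPart w).length ≤ 1) → ∀ w, w.length = r → c w = 0)

/-- boundedly many exceptional `s` in each `[N, 2 N]` -/
theorem scales (r : ℕ) (S : Letter 1) (Λ : Finset (List (Letter 1))) (hΛ : ∀ w ∈ Λ, AdmissiblePattern w)
    (hr : ∀ w ∈ Λ, w.length ≤ r) (hS : ∀ w ∈ Λ, w.sum = S) :
    ∃ K : ℕ, ∀ C : ℝ, ∃ N₀ : ℕ, ∀ N : ℕ, N₀ ≤ N →
      {s : ℕ | N ≤ s ∧ s ≤ 2 * N ∧ ¬ SplitsAt Λ r S C s}.ncard ≤ K := by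
  obtain ⟨hfew, -, hone⟩ := Pool.Agent.Results.MP_cbe134_nt.ManyVariables.result r S Λ hΛ hr hS
  obtain ⟨K, hK⟩ := hfew 2
  refine ⟨K, fun C => ?_⟩
  obtain ⟨N₁, hN₁⟩ := hK ((max |C| 1) ^ 2)
  refine ⟨N₁, fun N hN => ?_⟩
  have h1 := hN₁ N hN
  rw [Nat.sub_self, pow_zero, mul_one] at h1
  have hfin : (exceptional Λ r S 2 N (((max |C| 1) ^ 2) ^ N)).Finite := by
    refine (Set.Finite.pi (fun _ : Fin 1 => Set.finite_Iic (2 * N))).subset ?_
    intro s hs j _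
    exact (hs.1 j).2
  refine le_trans (Set.ncard_le_ncard_of_injOn (fun (s : ℕ) (_ : Fin 1) => s) ?_ ?_ hfin) h1
  · rintro s ⟨hs1, hs2, hs3⟩
    unfold SplitsAt at hs3
    push Not at hs3
    obtain ⟨c, h2, h3, h4, h5⟩ := hs3
    refine ⟨fun _ => ⟨hs1, hs2⟩, c, h2, fun w hw => (h3 w hw).trans (pow_bound C hs2), h4, fun hP => ?_⟩
    obtain ⟨h6, w, hw, hcw⟩ := h5 hP
    exact hcw (hone h6 c hP w hw)
  · intro s _ s' _ h
    exact congrFun h 0

/-- at most `O (X ^ η)` exceptional `s` up to `X` -/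
theorem count (r : ℕ) (S : Letter 1) (Λ : Finset (List (Letter 1))) (hΛ : ∀ w ∈ Λ, AdmissiblePattern w)
    (hr : ∀ w ∈ Λ, w.length ≤ r) (hS : ∀ w ∈ Λ, w.sum = S) (C : ℝ) :
    ∀ η : ℝ, 0 < η → ∃ C' : ℝ, ∀ X : ℝ, 1 ≤ X →
      {s : ℕ | (True ∧ ¬ SplitsAt Λ r S C s) ∧ (s : ℝ) ≤ X}.Finite ∧
      ({s : ℕ | (True ∧ ¬ SplitsAt Λ r S C s) ∧ (s : ℝ) ≤ X}.ncard : ℝ) ≤ C' * X ^ (0 + η) := by
  obtain ⟨K, hK⟩ := scales r S Λ hΛ hr hS
  obtain ⟨N₀, hN₀⟩ := hK C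
  intro η hη
  have h := thin_of_scales hN₀ η hη
  simpa only [true_and] using h

end Pool.Agent.Helper12.BK
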