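import Mathlib

set_option autoImplicit false

/-! Sets of natural numbers with boundedly many elements in each `[N, 2 N]`. -/

namespace Pool.Agent.Helper12.BK

open Finset Classical

lemma dyadic_count {P : ℕ → Prop} {K N₀ : ℕ}
    (h : ∀ N : ℕ, N₀ ≤ N → {s : ℕ | N ≤ s ∧ s ≤ 2 * N ∧ P s}.ncard ≤ K) (j : ℕ) :
    {s : ℕ | s < 2 ^ j ∧ P s}.ncard ≤ 2 * N₀ + 1 + K * j := by
  have hfin : ∀ m, {s : ℕ | s < m ∧ P s}.Finite := fun m =>
    (Set.finite_lt_nat m).subset fun s hs => hs.1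
  induction j with
  | zero =>
    have h1 : {s : ℕ | s < 2 ^ 0 ∧ P s} ⊆ {0} := by
      rintro s ⟨hs, -⟩
      simp only [pow_zero] at hs
      simp only [Set.mem_singleton_iff]
      omega
    have h2 := Set.ncard_le_ncard h1 (Set.finite_singleton 0)
    rw [Set.ncard_singleton] at h2
    omega
  | succ j ih =>
    by_cases hj : N₀ ≤ 2 ^ j
    · have h1 : {s : ℕ | s < 2 ^ (j + 1) ∧ P s} ⊆ {s : ℕ | s < 2 ^ j ∧ P s} ∪
          {s : ℕ | 2 ^ j ≤ s ∧ s ≤ 2 * 2 ^ j ∧ P s} := by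
        rintro s ⟨hs, hP⟩
        rw [pow_succ] at hs
        by_cases h3 : s < 2 ^ j
        · exact Or.inl ⟨h3, hP⟩
        · exact Or.inr ⟨by omega, by omega, hP⟩
      have hf : {s : ℕ | 2 ^ j ≤ s ∧ s ≤ 2 * 2 ^ j ∧ P s}.Finite :=
        (Set.finite_Icc (2 ^ j) (2 * 2 ^ j)).subset fun s hs => ⟨hs.1, hs.2.1⟩
      have h2 := (Set.ncard_le_ncard h1 ((hfin _).union hf)).trans (Set.ncard_union_le _ _)
      have h3 := h (2 ^ j) hj
      have h4 : K * (j + 1) = K * j + K := by ring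
      omega
    · have h1 : {s : ℕ | s < 2 ^ (j + 1) ∧ P s} ⊆ Set.Iio (2 * N₀) := by
        rintro s ⟨hs, -⟩
        rw [pow_succ] at hs
        simp only [Set.mem_Iio]
        omega
      have h2 := Set.ncard_le_ncard h1 (Set.finite_Iio _)
      rw [show (Set.Iio (2 * N₀)).ncard = 2 * N₀ by
        rw [← Finset.coe_Iio, Set.ncard_coe_finset, Nat.card_Iio]] at h2
      omega

/-- at most `C X ^ η` elements up to `X`, for every `η > 0` -/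
lemma thin_of_scales {P : ℕ → Prop} {K N₀ : ℕ}
    (h : ∀ N : ℕ, N₀ ≤ N → {s : ℕ | N ≤ s ∧ s ≤ 2 * N ∧ P s}.ncard ≤ K) :
    ∀ η : ℝ, 0 < η → ∃ C : ℝ, ∀ X : ℝ, 1 ≤ X → {s : ℕ | P s ∧ (s : ℝ) ≤ X}.Finite ∧
      ({s : ℕ | P s ∧ (s : ℝ) ≤ X}.ncard : ℝ) ≤ C * X ^ (0 + η) := by
  intro η hη
  refine ⟨2 * N₀ + 1 + K * (1 / (η * Real.log 2) + 1), fun X hX => ?_⟩
  have hX0 : 0 < X := by linarith
  set n : ℕ := ⌊X⌋₊ with hn
  have hn1 : 1 ≤ n := Nat.one_le_floor_iff _ |>.2 hX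
  set j : ℕ := Nat.log 2 n + 1 with hj
  have hlt : n < 2 ^ j := Nat.lt_pow_succ_log_self (by norm_num) n
  have hsub : {s : ℕ | P s ∧ (s : ℝ) ≤ X} ⊆ {s : ℕ | s < 2 ^ j ∧ P s} := by
    rintro s ⟨hP, hs⟩
    exact ⟨lt_of_le_of_lt (Nat.le_floor hs) hlt, hP⟩
  have hfin : {s : ℕ | s < 2 ^ j ∧ P s}.Finite := (Set.finite_lt_nat _).subset fun s hs => hs.1
  refine ⟨hfin.subset hsub, ?_⟩
  have h1 : ({s : ℕ | P s ∧ (s : ℝ) ≤ X}.ncard : ℝ) ≤ 2 * N₀ + 1 + K * j := by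
    exact_mod_cast (Set.ncard_le_ncard hsub hfin).trans (dyadic_count h j)
  have hlog2 : 0 < Real.log 2 := Real.log_pos (by norm_num)
  have h2 : ((Nat.log 2 n : ℕ) : ℝ) ≤ Real.log X / Real.log 2 := by
    rw [le_div_iff₀ hlog2, ← Real.log_pow]
    refine Real.log_le_log (by positivity) ?_
    have h3 : ((2 ^ Nat.log 2 n : ℕ) : ℝ) ≤ (n : ℝ) := by
      exact_mod_cast Nat.pow_log_le_self 2 (by omega)
    push_cast at h3
    exact h3.trans (Nat.floor_le hX0.le)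
  have h4 : Real.log X ≤ X ^ η / η := Real.log_le_rpow_div hX0.le hη
  have hXη : 1 ≤ X ^ η := Real.one_le_rpow hX hη.le
  have h5 : (j : ℝ) ≤ (1 / (η * Real.log 2) + 1) * X ^ η := by
    have h6 : (j : ℝ) = (Nat.log 2 n : ℕ) + 1 := by rw [hj]; push_cast; ring
    have h7 : Real.log X / Real.log 2 ≤ X ^ η / η / Real.log 2 :=
      div_le_div_of_nonneg_right h4 hlog2.le
    have h8 : X ^ η / η / Real.log 2 = 1 / (η * Real.log 2) * X ^ η := by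
      field_simp
    rw [h6]
    linarith
  have h9 : (2 * (N₀ : ℝ) + 1) ≤ (2 * N₀ + 1) * X ^ η := le_mul_of_one_le_right (by positivity) hXη
  have h10 : (K : ℝ) * j ≤ K * ((1 / (η * Real.log 2) + 1) * X ^ η) :=
    mul_le_mul_of_nonneg_left h5 (Nat.cast_nonneg K)
  rw [zero_add]
  calc ({s : ℕ | P s ∧ (s : ℝ) ≤ X}.ncard : ℝ) ≤ 2 * N₀ + 1 + K * j := h1
    _ ≤ (2 * N₀ + 1) * X ^ η + K * ((1 / (η * Real.log 2) + 1) * X ^ η) := add_le_add h9 h10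
    _ = (2 * N₀ + 1 + K * (1 / (η * Real.log 2) + 1)) * X ^ η := by ring

end Pool.Agent.Helper12.BK
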